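import Pool.Agent.Y798.OG.Part
import Pool.Agent.Y798.FC.Law2

/-! Orthogonal groups: the law of a probability measure with integral moments (job OG-LAW). -/

set_option autoImplicit false

namespace Pool.Agent.Y86.OG

open MeasureTheory UnitAddTorus Filter Topology Pool.Agent.Y798.FC Pool.Agent.Y798.OG
open Pool.Agent.Y139.ID (integrable_cont integrable_cont_real intL IsHaarOn annih
  measure_ext_fourier chiW wordFun continuous_chiW)

/-- the structure of the law; only the nonvanishing of the roots is used -/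
theorem structThm (hdiv : StmDiv) (hstr : StmStr) {r : ℕ} {Φ : Finset (Fin r → ℤ)}
    (hne : ∀ α ∈ Φ, α ≠ 0) :
    ∃ F : Finset (Fin r → ℤ), ∀ ρ : Measure (UnitAddTorus (Fin r)), IsFiniteMeasure ρ →
      (∀ μ : Fin r → ℤ, ∃ n : ℤ, ∫ x, mFourier μ x ∂ρ = n) →
      (∀ μ ∈ F, ∫ x, mFourier μ x ∂ρ = dC Φ μ) →
      ∃ (Γ : AddSubgroup (Fin r → ℤ)) (a : UnitAddTorus (Fin r)), IsCosetLaw Φ Γ a ρ := by
  classical
  obtain ⟨F1, hF1⟩ := isolate hdiv hne
  set S := (finite_dC Φ).toFinset with hS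
  have hSm : ∀ μ, dC Φ μ ≠ 0 → μ ∈ S := fun μ hμ => by
    rw [hS, Set.Finite.mem_toFinset]
    exact hμ
  refine ⟨F1 ∪ S ∪ (S ×ˢ S).image (fun p => p.1 - p.2), fun ρ hfin hint hFρ => ?_⟩
  have hF1' : ∀ μ ∈ F1, ∫ x, mFourier μ x ∂ρ = dC Φ μ := fun μ hμ =>
    hFρ μ (Finset.mem_union_left _ (Finset.mem_union_left _ hμ))
  have hiso := hF1 ρ hfin hint hF1'
  obtain ⟨Γ, a, hΓ, ha, hlaw⟩ := hstr (Fin r) Φ hne ρ hint
    (fun μ hμ => hFρ μ (Finset.mem_union_left _ (Finset.mem_union_right _ (hSm μ hμ))))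
    (fun μ ν' hμ hν' => hFρ _ (Finset.mem_union_right _ (Finset.mem_image.2
      ⟨(μ, ν'), Finset.mem_product.2 ⟨hSm μ hμ, hSm ν' hν'⟩, rfl⟩)))
    (fun κ hκ => by
      obtain ⟨γ, h1, h2⟩ := hiso (intL ρ (mFourier κ)) (fun f => by
        rw [intL_apply]
        refine (norm_integral_le_integral_norm _).trans (le_of_eq ?_)
        refine integral_congr_ae (Eventually.of_forall fun x => ?_)
        simp only [norm_mul, norm_mF, mul_one]) (fun μ => by
        rw [intL_apply]
        simp only [← mFourier_add]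
        exact hint _) (by
        rw [intL_apply]
        simp only [← mFourier_add, zero_add]
        exact hκ)
      refine ⟨γ, h1, ?_⟩
      rw [intL_apply] at h2
      simp only [← mFourier_add] at h2
      rwa [neg_add_eq_sub] at h2)
  exact ⟨Γ, a, hΓ, ha, hlaw⟩

section
variable {J : Type} [Fintype J] {W : Subgroup (Auts J)} {Φ : Finset (J → ℤ)}

theorem dC_inv1 {w : Auts J} (hinv : ∀ x, dens Φ (act w x) = dens Φ x) (μ : J → ℤ) :
    dC Φ (w μ) = dC Φ μ := by
  have h1 : dC Φ (w μ) = ∫ x, (fun y => mFourier μ y * (dens Φ y : ℂ)) (act w x) ∂(vol J) := by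
    unfold dC
    refine integral_congr_ae (Eventually.of_forall fun x => ?_)
    simp only
    rw [mF_act, hinv]
  rw [h1, ← integral_map (f := fun y => mFourier μ y * (dens Φ y : ℂ))
    (continuous_act w).measurable.aemeasurable, vol_map]
  · rfl
  · have := continuous_dens Φ
    exact (Continuous.aestronglyMeasurable (by fun_prop))

theorem orb_mean1 (hWfin : Finite W) (hinv : ∀ w ∈ W, ∀ x, dens Φ (act w x) = dens Φ x)
    (μ : J → ℤ) :
    ∫ x, orb W μ x * (dens Φ x : ℂ) ∂(vol J) = (Nat.card W : ℂ) * dC Φ μ := by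
  let _ : Fintype W := Fintype.ofFinite W
  have hd := continuous_dens Φ
  have h1 : ∀ x, orb W μ x * (dens Φ x : ℂ) =
      ∑ w : W, mFourier ((w : Auts J) μ) x * (dens Φ x : ℂ) := fun x => by
    rw [orb_eq, Finset.sum_mul]
  simp only [h1]
  rw [integral_finsetSum _ fun w _ => integrable_cont _ (by fun_prop)]
  have h2 : ∀ w : W, ∫ x, mFourier ((w : Auts J) μ) x * (dens Φ x : ℂ) ∂(vol J) = dC Φ μ :=
    fun w => dC_inv1 (hinv _ w.2) μ
  rw [Finset.sum_congr rfl fun w _ => h2 w, Finset.sum_const, Finset.card_univ, nsmul_eq_mul,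
    Nat.card_eq_fintype_card]

theorem dC_zero_ne (hne : ∀ α ∈ Φ, α ≠ 0) : dC Φ 0 ≠ 0 := by
  rw [dC_zero]
  intro h
  have h1 : ∫ x, dens Φ x ∂(vol J) = 0 := by exact_mod_cast h
  rw [integral_eq_zero_iff_of_nonneg (fun x => dens_nonneg Φ x)
    (integrable_cont_real _ (continuous_dens Φ))] at h1
  have h2 := null_dens hne
  have h3 : ∀ᵐ x ∂(vol J), False := by
    filter_upwards [h1, h2] with x hx hx'
    rw [hx] at hx'
    exact lt_irrefl _ hx'
  rw [ae_iff] at h3
  simp at h3

end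

/-- the signed permutations form a finite group -/
theorem finite_symp (g : ℕ) : Finite (sympW g) := by
  classical
  have hc : ∀ w : sympW g, ∃ p : Equiv.Perm (Fin g) × (Fin g → ℤˣ),
      ∀ (x : Fin g → ℤ) (j : Fin g), (w : Auts (Fin g)) x j = p.2 j * x (p.1 j) := by
    rintro ⟨w, σ, s, h⟩
    exact ⟨(σ, s), h⟩
  choose p hp using hc
  refine Finite.of_injective p fun w w' h => ?_
  refine Subtype.ext (LinearEquiv.ext fun x => funext fun j => ?_)
  rw [hp, hp, h]

section comp
variable {N : ℕ}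

/-- the part of the measure on a component -/
noncomputable def pm (P : Part N) (ν : Measure (UnitAddTorus (Fin N))) :
    Measure (UnitAddTorus (Fin P.r)) := (ν.restrict (Set.range P.emb)).map P.ret

theorem isClosed_range (P : Part N) : IsClosed (Set.range P.emb) :=
  (isCompact_range P.cemb).isClosed

theorem pm_fin (P : Part N) (ν : Measure (UnitAddTorus (Fin N))) [IsFiniteMeasure ν] :
    IsFiniteMeasure (pm P ν) := by
  unfold pm
  exact Measure.isFiniteMeasure_map _ _

theorem pm_int (P : Part N) (ν : Measure (UnitAddTorus (Fin N)))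
    {f : UnitAddTorus (Fin N) → ℂ} (hf : Continuous f) :
    ∫ y, f (P.emb y) ∂(pm P ν) = ∫ x in Set.range P.emb, f x ∂ν := by
  unfold pm
  rw [integral_map (f := fun y => f (P.emb y)) P.cret.measurable.aemeasurable
    (Continuous.aestronglyMeasurable (hf.comp P.cemb))]
  refine setIntegral_congr_fun (isClosed_range P).measurableSet ?_
  rintro _ ⟨y, rfl⟩
  simp only [P.ret_emb]

variable {I : Type} [Fintype I]

theorem decomp (P : I → Part N) (ν : Measure (UnitAddTorus (Fin N))) [IsFiniteMeasure ν]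
    (hν : ν (classes P)ᶜ = 0)
    (hdis : Pairwise (Function.onFun Disjoint fun i => Set.range (P i).emb))
    {f : UnitAddTorus (Fin N) → ℂ} (hf : Continuous f) :
    ∫ x, f x ∂ν = ∑ i, ∫ y, f ((P i).emb y) ∂(pm (P i) ν) := by
  have h1 : ν.restrict (classes P) = ν :=
    Measure.restrict_eq_self_of_ae_mem (by rw [ae_iff]; exact hν)
  have h2 := integral_iUnion_fintype (μ := ν) (f := f)
    (fun i => (isClosed_range (P i)).measurableSet) hdis
    (fun i => (integrable_cont ν hf).integrableOn)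
  have h3 : ∫ x, f x ∂ν = ∫ x in ⋃ i, Set.range (P i).emb, f x ∂ν := by
    conv_lhs => rw [← h1]
    rfl
  rw [h3, h2]
  exact Finset.sum_congr rfl fun i _ => (pm_int (P i) ν hf).symm

theorem span_cont {S : Set (UnitAddTorus (Fin N) → ℂ)} (hS : ∀ f ∈ S, Continuous f)
    {G : UnitAddTorus (Fin N) → ℂ} (hG : G ∈ Submodule.span ℤ S) : Continuous G := by
  induction hG using Submodule.span_induction with
  | mem f hf => exact hS f hf
  | zero => exact continuous_const
  | add f g _ _ hf hg => exact hf.add hg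
  | smul a f _ hf => exact hf.const_smul a

theorem int_zsmul {X : Type*} [MeasurableSpace X] (ν : Measure X) (a : ℤ) (f : X → ℂ) :
    ∫ x, (a • f) x ∂ν = (a : ℂ) * ∫ x, f x ∂ν := by
  rw [← integral_const_mul]
  refine integral_congr_ae (Eventually.of_forall fun x => ?_)
  simp only [Pi.smul_apply, zsmul_eq_mul]

theorem span_int1 {S : Set (UnitAddTorus (Fin N) → ℂ)} (hS : ∀ f ∈ S, Continuous f)
    (ν : Measure (UnitAddTorus (Fin N))) [IsFiniteMeasure ν]
    (h : ∀ f ∈ S, ∃ n : ℤ, ∫ x, f x ∂ν = n)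
    {G : UnitAddTorus (Fin N) → ℂ} (hG : G ∈ Submodule.span ℤ S) :
    ∃ n : ℤ, ∫ x, G x ∂ν = n := by
  induction hG using Submodule.span_induction with
  | mem f hf => exact h f hf
  | zero => exact ⟨0, by simp⟩
  | add f g hf hg hf' hg' =>
    obtain ⟨n, hn⟩ := hf'
    obtain ⟨m, hm⟩ := hg'
    refine ⟨n + m, ?_⟩
    push_cast
    rw [← hn, ← hm, ← integral_add (integrable_cont _ (span_cont hS hf))
      (integrable_cont _ (span_cont hS hg))]
    rfl
  | smul a f _ hf =>
    obtain ⟨n, hn⟩ := hf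
    refine ⟨a * n, ?_⟩
    rw [int_zsmul, hn]
    push_cast
    rfl

theorem hm_add (P : I → Part N) {f g : UnitAddTorus (Fin N) → ℂ} (hf : Continuous f)
    (hg : Continuous g) : hm P (f + g) = hm P f + hm P g := by
  unfold hm
  rw [← Finset.sum_add_distrib]
  refine Finset.sum_congr rfl fun i _ => ?_
  have hd := Complex.continuous_ofReal.comp (continuous_dens (P i).Φ)
  have i1 : Continuous fun x => f ((P i).emb x) * (dens (P i).Φ x : ℂ) :=
    (hf.comp (P i).cemb).mul hd
  have i2 : Continuous fun x => g ((P i).emb x) * (dens (P i).Φ x : ℂ) :=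
    (hg.comp (P i).cemb).mul hd
  rw [← mul_add, ← integral_add (integrable_cont _ i1) (integrable_cont _ i2)]
  have e : ∀ x, (f + g) ((P i).emb x) * (dens (P i).Φ x : ℂ) =
      f ((P i).emb x) * (dens (P i).Φ x : ℂ) + g ((P i).emb x) * (dens (P i).Φ x : ℂ) := fun x => by
    rw [Pi.add_apply, add_mul]
  simp only [e]

theorem hm_zsmul (P : I → Part N) (a : ℤ) (f : UnitAddTorus (Fin N) → ℂ) :
    hm P (a • f) = (a : ℂ) * hm P f := by
  unfold hm
  rw [Finset.mul_sum]
  refine Finset.sum_congr rfl fun i _ => ?_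
  have e : ∀ x, (a • f) ((P i).emb x) * (dens (P i).Φ x : ℂ) =
      (a : ℂ) * (f ((P i).emb x) * (dens (P i).Φ x : ℂ)) := fun x => by
    rw [Pi.smul_apply, zsmul_eq_mul, mul_assoc]
  simp only [e]
  rw [integral_const_mul]
  ring

theorem span_match1 (P : I → Part N) {S : Set (UnitAddTorus (Fin N) → ℂ)}
    (hS : ∀ f ∈ S, Continuous f) (ν : Measure (UnitAddTorus (Fin N))) [IsFiniteMeasure ν]
    (h : ∀ f ∈ S, ∫ x, f x ∂ν = hm P f)
    {G : UnitAddTorus (Fin N) → ℂ} (hG : G ∈ Submodule.span ℤ S) :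
    ∫ x, G x ∂ν = hm P G := by
  induction hG using Submodule.span_induction with
  | mem f hf => exact h f hf
  | zero => simp [hm]
  | add f g hf hg hf' hg' =>
    rw [hm_add P (span_cont hS hf) (span_cont hS hg), ← hf', ← hg',
      ← integral_add (integrable_cont _ (span_cont hS hf)) (integrable_cont _ (span_cont hS hg))]
    rfl
  | smul a f _ hf => rw [int_zsmul, hm_zsmul, hf]

theorem card_ne (g : ℕ) : (Nat.card (sympW g) : ℂ) ≠ 0 := by
  have := finite_symp g
  have : Nat.card (sympW g) ≠ 0 := Nat.card_pos.ne'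
  exact_mod_cast this

omit [Fintype I] in
theorem disjoint_ranges {P : I → Part N} (hA : Alg P) :
    Pairwise (Function.onFun Disjoint fun i => Set.range (P i).emb) := by
  intro i j hij
  rw [Function.onFun, Set.disjoint_left]
  rintro _ ⟨x, rfl⟩ ⟨y, hy⟩
  obtain ⟨G, -, h1, h2⟩ := hA i 0
  have h3 := h2 j hij.symm y
  rw [hy, h1] at h3
  have hfin := finite_symp (P i).r
  let _ : Fintype (sympW (P i).r) := Fintype.ofFinite _
  have h4 : orb (sympW (P i).r) 0 x = (Nat.card (sympW (P i).r) : ℂ) := by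
    rw [orb_eq]
    simp [mFourier_zero, Nat.card_eq_fintype_card]
  rw [h4] at h3
  have h5 : ((P i).κ : ℂ) ≠ 0 := by exact_mod_cast (P i).κ_pos.ne'
  exact mul_ne_zero h5 (card_ne _) h3

theorem sy_inv {P : Part N} {f : UnitAddTorus (Fin N) → ℝ} (hf : Sy f) :
    ∀ w ∈ sympW P.r, ∀ x, f (P.emb (act w x)) = f (P.emb x) := by
  intro w hw x
  obtain ⟨σ, hσ⟩ := P.equi w hw x
  rw [← hf σ (P.emb x)]
  congr 1
  funext j
  exact hσ j

end comp

/-- **The law of a probability measure with integral moments.** -/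
theorem t (hdiv : StmDiv) (hstr : StmStr) (hirr : StmIrr) : StmLaw := by
  classical
  intro N I _ P hA
  have hfinW : ∀ i, Finite (sympW (P i).r) := fun i => finite_symp _
  let instF : ∀ i, Fintype (sympW (P i).r) := fun i => Fintype.ofFinite _
  choose F0 hF0 using fun i => structThm hdiv hstr (P i).ne_zero
  choose G hG hG1 hG2 using hA
  choose R0 hR0 using fun i (μ : Fin (P i).r → ℤ) => span_R (hG i μ)
  set F : ∀ i, Finset (Fin (P i).r → ℤ) := fun i => insert 0 (F0 i) with hF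
  set R : ℕ := ∑ i, ∑ μ ∈ F i, R0 i μ with hR
  have hRle : ∀ i, ∀ μ ∈ F i, R0 i μ ≤ R := by
    intro i μ hμ
    refine (Finset.single_le_sum (f := fun μ => R0 i μ) (fun _ _ => Nat.zero_le _) hμ).trans ?_
    exact Finset.single_le_sum (f := fun i => ∑ μ ∈ F i, R0 i μ) (fun _ _ => Nat.zero_le _)
      (Finset.mem_univ i)
  refine ⟨R, fun ν hprob hν hint hmatch => ?_⟩
  have hdis : Pairwise (Function.onFun Disjoint fun i => Set.range (P i).emb) :=
    disjoint_ranges fun i μ => ⟨G i μ, hG i μ, hG1 i μ, hG2 i μ⟩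
  have hpf : ∀ i, IsFiniteMeasure (pm (P i) ν) := fun i => pm_fin _ _
  have hcW : ∀ f ∈ wordFun N, Continuous f := by
    rintro f ⟨r, k, -, rfl⟩
    exact continuous_chiW k
  have hcR : ∀ R' : ℕ, ∀ f ∈ wordFunR N R', Continuous f := by
    rintro R' f ⟨r, k, -, -, rfl⟩
    exact continuous_chiW k
  have hGc : ∀ i μ, Continuous (G i μ) := fun i μ => span_cont hcW (hG i μ)
  -- the measures on the components
  set m : ∀ i, Measure (UnitAddTorus (Fin (P i).r)) := fun i =>
    ((P i).κ : NNReal) • pm (P i) ν with hm'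
  have hmf : ∀ i, IsFiniteMeasure (m i) := fun i => by
    rw [hm']
    infer_instance
  have hmint : ∀ i (f : UnitAddTorus (Fin (P i).r) → ℂ), ∫ x, f x ∂(m i) =
      ((P i).κ : ℂ) * ∫ x, f x ∂(pm (P i) ν) := by
    intro i f
    rw [hm']
    simp only
    rw [integral_smul_nnreal_measure, NNReal.smul_def]
    simp
  set ρ : ∀ i, Measure (UnitAddTorus (Fin (P i).r)) := fun i => smeas (sympW (P i).r) (m i)
    with hρ
  have hρf : ∀ i, IsFiniteMeasure (ρ i) := fun i => smeas_fin _ _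
  have horb : ∀ i μ, ∫ x, mFourier μ x ∂(ρ i) = ∫ x, orb (sympW (P i).r) μ x ∂(m i) := by
    intro i μ
    rw [hρ, smeas_sym _ _ (by fun_prop)]
    refine integral_congr_ae (Eventually.of_forall fun x => ?_)
    exact (orb_eq' μ x).symm
  have hcoef : ∀ i μ, ∫ x, mFourier μ x ∂(ρ i) = ∫ x, G i μ x ∂ν := by
    intro i μ
    rw [horb, hmint, decomp P ν hν hdis (hGc i μ), Finset.sum_eq_single i]
    · simp only [hG1]
      rw [integral_const_mul]
    · intro j _ hj
      simp only [hG2 i μ j hj]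
      simp
    · simp
  have hρint : ∀ i, ∀ μ : Fin (P i).r → ℤ, ∃ n : ℤ, ∫ x, mFourier μ x ∂(ρ i) = n := by
    intro i μ
    rw [hcoef]
    refine span_int1 hcW ν ?_ (hG i μ)
    rintro f ⟨r, k, hk, rfl⟩
    exact hint r k hk
  have hρmatch : ∀ i, ∀ μ ∈ F i, ∫ x, mFourier μ x ∂(ρ i) = dC (P i).Φ μ := by
    intro i μ hμ
    rw [hcoef, span_match1 P (hcR R) ν (by
      rintro f ⟨r, k, hr, hk, rfl⟩
      exact hmatch r k hr hk) (hR0 i μ R (hRle i μ hμ))]
    unfold hm
    rw [Finset.sum_eq_single i]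
    · simp only [hG1, mul_assoc]
      rw [integral_const_mul, orb_mean1 (hfinW i) (P i).inv]
      have h1 : ((P i).κ : ℂ) ≠ 0 := by exact_mod_cast (P i).κ_pos.ne'
      have h2 := card_ne (P i).r
      field_simp
    · intro j _ hj
      simp only [hG2 i μ j hj]
      simp
    · simp
  choose Γ a hlaw using fun i => hF0 i (ρ i) (hρf i) (hρint i) fun μ hμ =>
    hρmatch i μ (Finset.mem_insert_of_mem hμ)
  have hinvW : ∀ i, ∀ w ∈ sympW (P i).r, ∀ μ : Fin (P i).r → ℤ,
      ∫ x, mFourier (w μ) x ∂(ρ i) = ∫ x, mFourier μ x ∂(ρ i) := by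
    intro i w hw μ
    rw [horb, horb]
    refine integral_congr_ae (Eventually.of_forall fun x => ?_)
    rw [orb_eq, orb_eq]
    exact Fintype.sum_equiv (Equiv.mulRight (⟨w, hw⟩ : sympW (P i).r)) _ _ fun w' => rfl
  have hmass : ∀ i, ((ρ i).real Set.univ : ℂ) ≠ 0 := by
    intro i
    rw [← mass_eq, hρmatch i 0 (Finset.mem_insert_self _ _)]
    exact dC_zero_ne (P i).ne_zero
  have hst : ∀ i, ∀ w ∈ sympW (P i).r, ∀ γ ∈ Γ i, w γ ∈ Γ i := fun i =>
    coset_stable (hlaw i) (hinvW i)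
  refine ⟨Γ, a, fun i => ⟨?_, (hlaw i).2.1, fun w hw γ hγ => ⟨hst i w hw γ hγ, ?_⟩⟩,
    fun σ hσ f hf hfS => ?_⟩
  · by_cases hΓ : Γ i = ⊥
    · exact Or.inl hΓ
    · exact Or.inr (hirr _ (Γ i) (hst i) hΓ)
  · have h3 := coset_value (hlaw i) (hst i w hw γ hγ)
    rw [hinvW i w hw, coset_value (hlaw i) hγ] at h3
    exact (mul_right_cancel₀ (hmass i) h3).symm
  · have hfC : Continuous fun x => (f x : ℂ) := Complex.continuous_ofReal.comp hf
    have h1 := decomp P ν hν hdis hfC
    rw [integral_complex_ofReal] at h1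
    have h2 : ∀ i, ∫ y, (f ((P i).emb y) : ℂ) ∂(pm (P i) ν) =
        ((((P i).κ : ℝ)⁻¹ * cosetMean (sympW (P i).r) (P i).Φ (σ i) (a i)
          fun x => f ((P i).emb x) : ℝ) : ℂ) := by
      intro i
      have hfi : Continuous fun x => f ((P i).emb x) := hf.comp (P i).cemb
      have h3 := cosetMean_eq (W := sympW (P i).r) (hlaw i) (hσ i) hfi
      have h4 : ∫ x, (f ((P i).emb x) : ℂ) ∂(ρ i) = (Nat.card (sympW (P i).r) : ℂ) *
          (((P i).κ : ℂ) * ∫ x, (f ((P i).emb x) : ℂ) ∂(pm (P i) ν)) := by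
        have h5 := smeas_sym (sympW (P i).r) (m i) (f := fun x => (f ((P i).emb x) : ℂ))
          (Complex.continuous_ofReal.comp hfi)
        rw [hρ, h5, ← hmint, ← integral_const_mul]
        refine integral_congr_ae (Eventually.of_forall fun x => ?_)
        exact sym_inv _ (fun w hw x => by rw [sy_inv hfS w hw]) x
      rw [h4, inv_mul_cancel_left₀ (card_ne _)] at h3
      have h6 : ((P i).κ : ℂ) ≠ 0 := by exact_mod_cast (P i).κ_pos.ne'
      push_cast
      rw [← h3, inv_mul_cancel_left₀ h6]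
    simp only [h2] at h1
    unfold cm
    exact_mod_cast h1

end Pool.Agent.Y86.OG
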